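import Mathlib
import Pool.Agent.Helper452.Fins.Calc5
import Pool.Agent.Helper452.Fins.Frame

set_option autoImplicit false

open Matrix MeasureTheory

namespace Pool.Agent.Results.MP_f6facd_gt.NegativeRicciCounterexample

open Pool.Agent.Helper452.Fins

/-- The unit ball of the metric of the proof has finite positive volume, so the
Busemann-Hausdorff density is a genuine positive number (sanity check). -/
theorem volume_ball (x : V 4) :
    0 < volume {y : V 4 | FF x y < 1} ∧ volume {y : V 4 | FF x y < 1} < ⊤ := by
  have hcont : Continuous (fun y : V 4 => 2 * (A x y + B x y)) := by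
    unfold A B
    fun_prop
  have hle : ∀ y : V 4, L x y ≤ 4 * (A x y + B x y) := by
    intro y
    have hA := A_nonneg x y
    have hB := B_nonneg x y
    unfold L
    by_cases h : A x y + B x y = 0
    · rw [h]; simp
    · have hp : 0 < A x y + B x y := lt_of_le_of_ne (by linarith) (Ne.symm h)
      have : A x y * B x y / (A x y + B x y) ≤ A x y + B x y := by
        rw [div_le_iff₀ hp]; nlinarith
      linarith
  have hge : ∀ y : V 4, 2 * (A x y + B x y) ≤ L x y := by
    intro y
    have hA := A_nonneg x y
    have hB := B_nonneg x y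
    unfold L
    have : 0 ≤ A x y * B x y / (A x y + B x y) := by positivity
    linarith
  constructor
  · have hopen : IsOpen {y : V 4 | 2 * (A x y + B x y) < 1 / 2} := isOpen_lt hcont continuous_const
    have hsub : {y : V 4 | 2 * (A x y + B x y) < 1 / 2} ⊆ {y : V 4 | FF x y < 1} := by
      intro y hy
      rw [Set.mem_ofPred_eq] at hy ⊢
      unfold FF
      rw [Real.sqrt_lt' one_pos]
      have := hle y
      linarith
    have hne : {y : V 4 | 2 * (A x y + B x y) < 1 / 2}.Nonempty := ⟨0, by
      rw [Set.mem_ofPred_eq, A_zero, B_zero]; norm_num⟩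
    exact lt_of_lt_of_le (hopen.measure_pos volume hne) (measure_mono hsub)
  · have hsub : {y : V 4 | FF x y < 1} ⊆
        Metric.closedBall (0 : V 4) (Real.exp (-x 1) + 1 + Real.exp (-x 3) + 1) := by
      intro y hy
      rw [Set.mem_ofPred_eq] at hy
      unfold FF at hy
      rw [Real.sqrt_lt' one_pos] at hy
      have h1 := hge y
      have hA := A_nonneg x y
      have hB := B_nonneg x y
      have hA1 : A x y < 1 := by linarith
      have hB1 : B x y < 1 := by linarith
      have e1 : (Real.exp (x 1) * y 0) ^ 2 + y 1 ^ 2 < 1 := by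
        have : A x y = (Real.exp (x 1) * y 0) ^ 2 + y 1 ^ 2 := by
          unfold A; rw [exp_sq]; ring
        linarith
      have e2 : (Real.exp (x 3) * y 2) ^ 2 + y 3 ^ 2 < 1 := by
        have : B x y = (Real.exp (x 3) * y 2) ^ 2 + y 3 ^ 2 := by
          unfold B; rw [exp_sq]; ring
        linarith
      have p1 := Real.exp_pos (-x 1)
      have p3 := Real.exp_pos (-x 3)
      have q1 : |Real.exp (x 1) * y 0| ≤ 1 := by
        rw [← sq_le_one_iff_abs_le_one]; nlinarith [sq_nonneg (y 1)]
      have q2 : |y 1| ≤ 1 := by
        rw [← sq_le_one_iff_abs_le_one]; nlinarith [sq_nonneg (Real.exp (x 1) * y 0)]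
      have q3 : |Real.exp (x 3) * y 2| ≤ 1 := by
        rw [← sq_le_one_iff_abs_le_one]; nlinarith [sq_nonneg (y 3)]
      have q4 : |y 3| ≤ 1 := by
        rw [← sq_le_one_iff_abs_le_one]; nlinarith [sq_nonneg (Real.exp (x 3) * y 2)]
      have r1 : |y 0| ≤ Real.exp (-x 1) := by
        rw [abs_mul, abs_of_pos (Real.exp_pos _)] at q1
        have h2 : Real.exp (-x 1) * Real.exp (x 1) = 1 := by rw [← Real.exp_add]; simp
        nlinarith [abs_nonneg (y 0)]
      have r3 : |y 2| ≤ Real.exp (-x 3) := by
        rw [abs_mul, abs_of_pos (Real.exp_pos _)] at q3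
        have h2 : Real.exp (-x 3) * Real.exp (x 3) = 1 := by rw [← Real.exp_add]; simp
        nlinarith [abs_nonneg (y 2)]
      rw [mem_closedBall_zero_iff, pi_norm_le_iff_of_nonneg (by positivity)]
      intro i
      rw [Real.norm_eq_abs]
      fin_cases i
      · show |y 0| ≤ _
        linarith
      · show |y 1| ≤ _
        linarith
      · show |y 2| ≤ _
        linarith
      · show |y 3| ≤ _
        linarith
    exact lt_of_le_of_lt (measure_mono hsub) (isCompact_closedBall _ _).measure_lt_top

/-- There is a smooth Finsler metric `F` on `R^4` which is homogeneous, is not Riemannian, has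
negative Ricci scalar and has identically vanishing S-curvature. -/
theorem result : ∃ F : V 4 → V 4 → ℝ,
    IsFinsler F ∧ IsHomogeneous F ∧ ¬ IsRiemannian F ∧ NegativeRicci F ∧ VanishingS F := by
  refine ⟨FF, isFinsler_FF, homogeneous_FF, not_riemannian_FF, ?_, vanishingS_FF⟩
  intro x y hy
  have hpos := AB_pos x y hy
  refine ⟨frame_exists (fund FF x y) (fund_posDef x y hy) y hy, ?_, ?_⟩
  · intro e he
    rw [ricci_frame x y hy e he]
    linarith
  · rw [riem_trace]
    linarith

end Pool.Agent.Results.MP_f6facd_gt.NegativeRicciCounterexample
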