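import Pool.Agent.Helper56.Finsler.Main2

/-!
MP_f6facd_gt, Q1: there is a non-Riemannian homogeneous Finsler space with negative Ricci scalar
and identically vanishing S-curvature (so the conjectured negated form is false).

The example is the product of two hyperbolic planes, on `ℝ⁴` with coordinates
`(x₀,x₁,x₂,x₃)`, `s = e^{2x₁} y₀² + y₁²`, `t = e^{2x₃} y₂² + y₃²` and
`F(x,y) = √(s + t + √(s² + t²))`.
-/

namespace Pool.Agent.Results.MP_f6facd_gt.NegativeRicciZeroS

open Pool.Agent.Helper56.Finsler

theorem result : ∃ F : Vec 4 → Vec 4 → ℝ,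
    IsFinsler F ∧ IsHomogeneous F ∧ ¬ IsRiemannian F ∧ NegativeRicci F ∧ SCurvatureVanishes F :=
  ⟨FF, isFinsler, isHomogeneous, not_isRiemannian, negativeRicci, sCurvatureVanishes⟩

end Pool.Agent.Results.MP_f6facd_gt.NegativeRicciZeroS
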